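import Pool.Agent.H47.LS.S2Dd

/-!
S2D: local smoothing in the plane with slab gain.
-/

set_option autoImplicit false

namespace Pool.Agent.H47.LS

open MeasureTheory Set Pool.Agent.H83.LS Pool.Agent.H19.LS
open scoped ENNReal NNReal ContDiff

theorem abs_cos_le (x : ℝ) : |Real.cos x| ≤ 1 := Real.abs_cos_le_one x

/-- the estimate for bounded data with compact support -/
theorem bc_est (hSLW : T_SLW) (hTRACE : T_TRACE) (hKB : T_KB) (hPLB : T_PLB) {p η : ℝ}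
    (hp : 2 < p) (hp3 : p ≤ 3) (hη : 0 < η) : ∃ C : ℝ≥0, ∀ (lam Lam : ℝ) (g : ℝ × ℝ → ℂ) (A : ℝ),
    1 ≤ lam → 0 < Lam → Lam ≤ 4 * lam → BC g → (∀ y, ‖g y‖ ≤ A) →
    (∫⁻ t in Icc (1 : ℝ) 2, ∫⁻ x, ‖cv (KK t lam Lam) g x‖ₑ ^ p ≤
      C * ENNReal.ofReal (lam ^ η * A ^ (p - 2)) * ∫⁻ y, ‖g y‖ₑ ^ 2) ∧
    (∀ δ : ℝ, 0 < δ →
      ∫⁻ t in Icc (1 : ℝ) 2, ∫⁻ x in {x : ℝ × ℝ | |x.1| ≤ δ}, ‖cv (KK t lam Lam) g x‖ₑ ^ p ≤
        C * ENNReal.ofReal (lam ^ η * (δ * lam / Lam) ^ (2 - p / 2) * A ^ (p - 2)) *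
          ∫⁻ y, ‖g y‖ₑ ^ 2) := by
  obtain ⟨C1, hC1⟩ := kernel_bound hKB
  obtain ⟨CT, hCT⟩ := hTRACE
  obtain ⟨J, hJ⟩ := exists_J
  obtain ⟨CS, hCS⟩ := hSLW p η (16 + 256 * CT * J) hp hp3 hη
  refine ⟨16 * (27 * CS * C1 ^ (p - 2)), fun lam Lam g A hl hL hLl hg hA => ?_⟩
  have hl0 : 0 < lam := by linarith
  have hA0 : 0 ≤ A := (norm_nonneg _).trans (hA 0)
  set γ : ℝ := 2 - p / 2 with hγ
  have hγ0 : 0 < γ := by linarith
  have hγ1 : γ ≤ 1 := by linarith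
  set C : ℝ≥0 := 27 * CS * C1 ^ (p - 2) with hC
  have hCe : (27 : ℝ≥0∞) * CS * C1 ^ (p - 2) = (C : ℝ≥0∞) := by
    rw [hC, ENNReal.coe_mul, ENNReal.coe_mul, ENNReal.coe_rpow_of_nonneg _ (by linarith)]
    norm_num
  clear_value C
  have hker : ∀ k, ∫⁻ y, ‖Fi (xk k lam Lam) y‖ₑ ≤ C1 := fun k => hC1 k lam Lam hl0 hL hLl
  have hbbTC : ∀ k, TC (bb k lam Lam g) := fun k => bb_TC hPLB k hl0 hg
  have hα : 0 < Lam / lam := by positivity
  have hα4 : Lam / lam ≤ 4 := by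
    rw [div_le_iff₀ hl0]
    exact hLl
  have hcosB : ∀ k, |Real.cos (thB k)| + 2 * 1 ≤ 10 * 1 := fun k => by
    have := abs_cos_le (thB k)
    linarith
  -- first part
  have part1 : ∫⁻ t in Icc (1 : ℝ) 2, ∫⁻ x, ‖cv (KK t lam Lam) g x‖ₑ ^ p ≤
      C * ENNReal.ofReal (lam ^ η * A ^ (p - 2)) * ∫⁻ y, ‖g y‖ₑ ^ 2 := by
    have h0 := hyp0 hPLB hl (16 + 256 * CT * J) le_self_add
    have h1 := hCS 1 1 lam _ _ h0 1 one_pos le_rfl
    have h2 := core (Lam := Lam) (θ := thB) (A := A) hp hp3 hl hPLB hker one_pos measurable_const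
      h1 hcosB (fun k => ⟨hbbTC k, fun ζ hζ => ⟨mem_univ _, bb_tauB k hl0 hL hζ⟩⟩) hg hA
    simp only [one_mul, Real.one_rpow, mul_one] at h2
    rw [hCe] at h2
    exact h2
  -- slabs
  have hmE : ∀ δ : ℝ, MeasurableSet {x : ℝ × ℝ | |x.1| ≤ δ} := fun δ =>
    measurableSet_le (by fun_prop) measurable_const
  have slab : ∀ (κ κ' ρ δ : ℝ) (θ : Fin 3 → ℝ), 0 < κ → κ ≤ 1 → 0 < κ' → κ' ≤ 1 →
      κ ≤ 256 * κ' → 0 < ρ → ρ ≤ 1 → 8 * κ' ≤ Lam / lam → κ * ρ = δ →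
      (∀ k, |Real.cos (θ k)| + 2 * κ ≤ 10 * κ) →
      (∀ k ζ, bb k lam Lam g ζ ≠ 0 → ζ ∈ tau (θ k) κ) →
      ∫⁻ t in Icc (1 : ℝ) 2, ∫⁻ x in {x : ℝ × ℝ | |x.1| ≤ δ}, ‖cv (KK t lam Lam) g x‖ₑ ^ p ≤
        4 * (C * ENNReal.ofReal (lam ^ η * ρ ^ γ * A ^ (p - 2)) * ∫⁻ y, ‖g y‖ₑ ^ 2) := by
    intro κ κ' ρ δ θ hκ hκ1 hκ' hκ1' hkk hρ hρ1 h8 hδ hcos htau
    have h0 := hyp1 hCT hJ hκ hκ1 hκ' hκ1' hkk hρ hρ1 hl (16 + 256 * CT * J) le_add_self
    have h1 := hCS κ ρ lam _ _ h0 κ hκ le_rfl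
    have h2 := core (Lam := Lam) (θ := θ) (A := A) hp hp3 hl hPLB hker hρ (ws_meas _)
      h1 hcos (fun k => ⟨hbbTC k, fun ζ hζ => ⟨bb_Sr k hl0 hL hκ' h8 hζ, htau k ζ hζ⟩⟩) hg hA
    rw [hCe] at h2
    refine le_trans ?_ (mul_le_mul_right h2 4)
    rw [← lintegral_const_mul' _ _ (by norm_num)]
    apply lintegral_mono
    intro t
    simp only
    rw [← lintegral_const_mul' _ _ (by norm_num)]
    refine (setLIntegral_mono' (g := fun x : ℝ × ℝ => 4 * (ws (κ * ρ * lam) (lam * x.1) *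
      ‖cv (KK t lam Lam) g x‖ₑ ^ p)) (hmE δ) ?_).trans (setLIntegral_le_lintegral _ _)
    intro x hx
    rw [← mul_assoc]
    have h3 : 1 ≤ 4 * ws (κ * ρ * lam) (lam * x.1) := by
      unfold ws
      have h4 : (4 : ℝ≥0∞) = ENNReal.ofReal 4 := by norm_num
      rw [h4, ← ENNReal.ofReal_mul (by norm_num), ENNReal.one_le_ofReal]
      have h5 : |lam * x.1| / (κ * ρ * lam) ≤ 1 := by
        rw [hδ, div_le_one (by rw [← hδ]; positivity), abs_mul, abs_of_pos hl0, mul_comm]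
        exact mul_le_mul_of_nonneg_right hx hl0.le
      have h6 : (1 + |lam * x.1| / (κ * ρ * lam)) ^ 2 ≤ 4 := by
        have h7 : 0 ≤ |lam * x.1| / (κ * ρ * lam) := by positivity
        nlinarith
      have h8 : (0 : ℝ) < (1 + |lam * x.1| / (κ * ρ * lam)) ^ 2 := by positivity
      rw [← div_eq_mul_inv, le_div_iff₀ h8]
      linarith
    calc ‖cv (KK t lam Lam) g x‖ₑ ^ p = 1 * ‖cv (KK t lam Lam) g x‖ₑ ^ p := (one_mul _).symm
      _ ≤ _ := by gcongr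
  have hγ4 : (4 : ℝ) ^ γ ≤ 4 := by
    calc (4 : ℝ) ^ γ ≤ (4 : ℝ) ^ (1 : ℝ) := Real.rpow_le_rpow_of_exponent_le (by norm_num) hγ1
      _ = 4 := Real.rpow_one 4
  -- comparison of the constants
  have fin : ∀ (δ ρ : ℝ) (I : ℝ≥0∞), 0 < δ → 0 < ρ → ρ ≤ 4 * (δ * lam / Lam) →
      I ≤ 4 * (C * ENNReal.ofReal (lam ^ η * ρ ^ γ * A ^ (p - 2)) * ∫⁻ y, ‖g y‖ₑ ^ 2) →
      I ≤ (16 * C : ℝ≥0) * ENNReal.ofReal (lam ^ η * (δ * lam / Lam) ^ γ * A ^ (p - 2)) *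
        ∫⁻ y, ‖g y‖ₑ ^ 2 := by
    intro δ ρ I hδ hρ hle hI
    refine hI.trans ?_
    have h1 : ρ ^ γ ≤ 4 * (δ * lam / Lam) ^ γ := by
      calc ρ ^ γ ≤ (4 * (δ * lam / Lam)) ^ γ := Real.rpow_le_rpow hρ.le hle hγ0.le
        _ = 4 ^ γ * (δ * lam / Lam) ^ γ := Real.mul_rpow (by norm_num) (by positivity)
        _ ≤ 4 * (δ * lam / Lam) ^ γ := by gcongr
    calc 4 * (C * ENNReal.ofReal (lam ^ η * ρ ^ γ * A ^ (p - 2)) * ∫⁻ y, ‖g y‖ₑ ^ 2)
        ≤ 4 * (C * ENNReal.ofReal (4 * (lam ^ η * (δ * lam / Lam) ^ γ * A ^ (p - 2))) *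
            ∫⁻ y, ‖g y‖ₑ ^ 2) := by
          have h2 : lam ^ η * ρ ^ γ * A ^ (p - 2) ≤
              4 * (lam ^ η * (δ * lam / Lam) ^ γ * A ^ (p - 2)) := by
            calc lam ^ η * ρ ^ γ * A ^ (p - 2)
                ≤ lam ^ η * (4 * (δ * lam / Lam) ^ γ) * A ^ (p - 2) := by gcongr
              _ = _ := by ring
          have h3 := ENNReal.ofReal_le_ofReal h2
          gcongr 4 * (C * ?_ * _)
      _ = _ := by
          rw [ENNReal.ofReal_mul (by norm_num : (0 : ℝ) ≤ 4)]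
          have h4 : ENNReal.ofReal 4 = 4 := by norm_num
          rw [h4, ENNReal.coe_mul]
          push_cast
          ring
  refine ⟨part1.trans ?_, fun δ hδ => ?_⟩
  · gcongr
    calc C = 1 * C := (one_mul _).symm
      _ ≤ 16 * C := by gcongr; norm_num
  · have hlarge : 1 ≤ 4 * (δ * lam / Lam) →
        ∫⁻ t in Icc (1 : ℝ) 2, ∫⁻ x in {x : ℝ × ℝ | |x.1| ≤ δ}, ‖cv (KK t lam Lam) g x‖ₑ ^ p ≤
        (16 * C : ℝ≥0) * ENNReal.ofReal (lam ^ η * (δ * lam / Lam) ^ γ * A ^ (p - 2)) *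
          ∫⁻ y, ‖g y‖ₑ ^ 2 := by
      intro h
      apply fin δ 1 _ hδ one_pos h
      calc ∫⁻ t in Icc (1 : ℝ) 2, ∫⁻ x in {x : ℝ × ℝ | |x.1| ≤ δ}, ‖cv (KK t lam Lam) g x‖ₑ ^ p
          ≤ ∫⁻ t in Icc (1 : ℝ) 2, ∫⁻ x, ‖cv (KK t lam Lam) g x‖ₑ ^ p :=
            lintegral_mono fun t => setLIntegral_le_lintegral _ _
        _ ≤ 1 * (C * ENNReal.ofReal (lam ^ η * A ^ (p - 2)) * ∫⁻ y, ‖g y‖ₑ ^ 2) := by
            rw [one_mul]
            exact part1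
        _ ≤ 4 * (C * ENNReal.ofReal (lam ^ η * 1 ^ γ * A ^ (p - 2)) * ∫⁻ y, ‖g y‖ₑ ^ 2) := by
            rw [Real.one_rpow, mul_one]
            gcongr
            norm_num
    have hdα : δ * lam / Lam = δ / (Lam / lam) := by field_simp
    by_cases hs : Lam / lam ≤ 1 / 32
    · by_cases hd : δ ≤ 10 * (Lam / lam)
      · apply fin δ (δ / (10 * (Lam / lam))) _ hδ (by positivity)
        · rw [hdα, div_le_iff₀ (by positivity)]
          have h9 : 4 * (δ / (Lam / lam)) * (10 * (Lam / lam)) = 40 * δ := by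
            field_simp
            norm_num
          rw [h9]
          linarith
        · apply slab (10 * (Lam / lam)) (Lam / lam / 8) _ δ thA (by positivity) (by linarith)
            (by positivity) (by linarith) (by linarith) (by positivity)
            ((div_le_one (by positivity)).2 hd) (by linarith)
          · field_simp
          · intro k
            have h10 : Real.cos (thA k) = 0 := by
              fin_cases k
              · exact Real.cos_pi_div_two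
              · change Real.cos (-(Real.pi / 2)) = 0
                rw [Real.cos_neg, Real.cos_pi_div_two]
              · exact Real.cos_pi_div_two
            rw [h10, abs_zero]
            linarith
          · intro k ζ hζ
            exact bb_tauA k hl0 hL hs hζ
      · apply hlarge
        rw [not_le] at hd
        rw [hdα]
        have h11 : 1 ≤ δ / (Lam / lam) := by
          rw [le_div_iff₀ hα]
          linarith
        linarith
    · rw [not_le] at hs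
      by_cases hd : δ ≤ 1
      · apply fin δ δ _ hδ hδ
        · rw [hdα]
          have h12 : δ / 4 ≤ δ / (Lam / lam) := by gcongr
          linarith
        · apply slab 1 (1 / 256) δ δ thB one_pos le_rfl (by norm_num) (by norm_num) (by norm_num)
            hδ hd (by linarith) (one_mul _) hcosB
          intro k ζ hζ
          exact bb_tauB k hl0 hL hζ
      · apply hlarge
        rw [not_le] at hd
        rw [hdα]
        have h12 : δ / 4 ≤ δ / (Lam / lam) := by gcongr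
        linarith

/-- truncation -/
noncomputable def gn (g : ℝ × ℝ → ℂ) (n : ℕ) : ℝ × ℝ → ℂ :=
  (Metric.closedBall (0 : ℝ × ℝ) n).indicator g

theorem gn_norm (g : ℝ × ℝ → ℂ) (n : ℕ) (y : ℝ × ℝ) : ‖gn g n y‖ ≤ ‖g y‖ :=
  norm_indicator_le_norm_self _ _

theorem gn_BC {g : ℝ × ℝ → ℂ} {A : ℝ} (hg : Measurable g) (hA : ∀ y, ‖g y‖ ≤ A) (n : ℕ) :
    BC (gn g n) := by
  refine ⟨hg.indicator measurableSet_closedBall, ⟨A, fun y => (gn_norm g n y).trans (hA y)⟩,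
    n, fun y hy => ?_⟩
  apply indicator_of_notMem
  rw [mem_closedBall_zero_iff]
  exact not_le.2 hy

theorem KK_bdd (t lam Lam : ℝ) : ∃ M : ℝ, ∀ x, ‖KK t lam Lam x‖ ≤ M := by
  refine ⟨∫ ξ : ℝ × ℝ, ‖((chi (Real.sqrt (ξ.1 ^ 2 + ξ.2 ^ 2) / lam) * chis (ξ.1 / Lam) : ℝ) : ℂ)‖,
    fun x => ?_⟩
  unfold KK
  refine (norm_integral_le_integral_norm _).trans (le_of_eq ?_)
  refine integral_congr_ae (Filter.Eventually.of_forall fun ξ => ?_)
  simp only
  rw [norm_mul, norm_e, one_mul]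

theorem cv_tendsto {t lam Lam : ℝ} {g : ℝ × ℝ → ℂ} (hl : 0 < lam) (hg : Measurable g)
    (hi : Integrable g) (x : ℝ × ℝ) :
    Filter.Tendsto (fun n : ℕ => cv (KK t lam Lam) (gn g n) x) Filter.atTop
      (nhds (cv (KK t lam Lam) g x)) := by
  obtain ⟨M, hM⟩ := KK_bdd t lam Lam
  have hK := KK_cont t lam Lam hl
  unfold cv
  apply tendsto_integral_of_dominated_convergence (fun y => M * ‖g y‖)
  · intro n
    exact ((hK.comp (by fun_prop)).aestronglyMeasurable).mul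
      (hg.indicator measurableSet_closedBall).aestronglyMeasurable
  · exact hi.norm.const_mul M
  · intro n
    refine Filter.Eventually.of_forall fun y => ?_
    rw [norm_mul]
    exact mul_le_mul (hM _) (gn_norm g n y) (norm_nonneg _) ((norm_nonneg _).trans (hM 0))
  · refine Filter.Eventually.of_forall fun y => ?_
    apply Filter.Tendsto.congr' _ tendsto_const_nhds
    obtain ⟨N, hN⟩ := exists_nat_ge ‖y‖
    filter_upwards [Filter.eventually_ge_atTop N] with n hn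
    have : gn g n y = g y := by
      apply indicator_of_mem
      rw [mem_closedBall_zero_iff]
      exact hN.trans (by exact_mod_cast hn)
    rw [this]

theorem fatou (hPLB : T_PLB) {p lam Lam A : ℝ} {g : ℝ × ℝ → ℂ} {E : Set (ℝ × ℝ)} (hp : 0 ≤ p)
    (hl : 0 < lam) (hg : Measurable g) (hi : Integrable g) (hA : ∀ y, ‖g y‖ ≤ A) {B : ℝ≥0∞}
    (hB : ∀ n : ℕ, ∫⁻ t in Icc (1 : ℝ) 2, ∫⁻ x in E, ‖cv (KK t lam Lam) (gn g n) x‖ₑ ^ p ≤ B) :
    ∫⁻ t in Icc (1 : ℝ) 2, ∫⁻ x in E, ‖cv (KK t lam Lam) g x‖ₑ ^ p ≤ B := by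
  have hBC := gn_BC hg hA
  have hpt : ∀ (t : ℝ) (x : ℝ × ℝ), ‖cv (KK t lam Lam) g x‖ₑ ^ p =
      Filter.liminf (fun n : ℕ => ‖cv (KK t lam Lam) (gn g n) x‖ₑ ^ p) Filter.atTop := by
    intro t x
    have h1 := (cv_tendsto (t := t) (Lam := Lam) hl hg hi x).enorm
    have h2 := ((ENNReal.continuous_rpow_const (y := p)).tendsto _).comp h1
    exact h2.liminf_eq.symm
  have hin : ∀ t : ℝ, ∫⁻ x in E, ‖cv (KK t lam Lam) g x‖ₑ ^ p ≤
      Filter.liminf (fun n : ℕ => ∫⁻ x in E, ‖cv (KK t lam Lam) (gn g n) x‖ₑ ^ p)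
        Filter.atTop := by
    intro t
    simp_rw [hpt t]
    apply lintegral_liminf_le
    intro n
    exact (cv_meas _ _ (KK_cont t lam Lam hl) (hBC n).1).enorm.pow_const p
  have hout : ∀ n : ℕ, Measurable fun t : ℝ =>
      ∫⁻ x in E, ‖cv (KK t lam Lam) (gn g n) x‖ₑ ^ p := by
    intro n
    have h3 : Continuous fun q : ℝ × (ℝ × ℝ) => cv (KK q.1 lam Lam) (gn g n) q.2 := by
      have h4 : (fun q : ℝ × (ℝ × ℝ) => cv (KK q.1 lam Lam) (gn g n) q.2) =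
          fun q => ∑ k, W (q.1 * lam) (bb k lam Lam (gn g n)) (lam * q.2.1, lam * q.2.2) := by
        funext q
        exact cv_eq hPLB q.1 hl (hBC n) q.2
      rw [h4]
      refine continuous_finsetSum _ fun k _ => ?_
      exact (W_cont _ (bb_TC hPLB k hl (hBC n))).comp
        (g := fun p : ℝ × (ℝ × ℝ) => W p.1 (bb k lam Lam (gn g n)) p.2)
        (f := fun q : ℝ × (ℝ × ℝ) => (q.1 * lam, (lam * q.2.1, lam * q.2.2))) (by fun_prop)
    have h5 : Measurable fun q : ℝ × (ℝ × ℝ) => ‖cv (KK q.1 lam Lam) (gn g n) q.2‖ₑ ^ p :=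
      h3.measurable.enorm.pow_const p
    exact h5.lintegral_prod_right'
  calc ∫⁻ t in Icc (1 : ℝ) 2, ∫⁻ x in E, ‖cv (KK t lam Lam) g x‖ₑ ^ p
      ≤ ∫⁻ t in Icc (1 : ℝ) 2, Filter.liminf (fun n : ℕ =>
          ∫⁻ x in E, ‖cv (KK t lam Lam) (gn g n) x‖ₑ ^ p) Filter.atTop := lintegral_mono hin
    _ ≤ Filter.liminf (fun n : ℕ => ∫⁻ t in Icc (1 : ℝ) 2,
          ∫⁻ x in E, ‖cv (KK t lam Lam) (gn g n) x‖ₑ ^ p) Filter.atTop := lintegral_liminf_le hout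
    _ ≤ Filter.liminf (fun _ : ℕ => B) Filter.atTop :=
        Filter.liminf_le_liminf (Filter.Eventually.of_forall hB)
    _ = B := by simp

/-- S2D: local smoothing in the plane with slab gain -/
theorem s2d (hSLW : T_SLW) (hTRACE : T_TRACE) (hKB : T_KB) (hPLB : T_PLB) : T_S2D := by
  intro p η hp hp3 hη
  obtain ⟨C, hC⟩ := bc_est hSLW hTRACE hKB hPLB hp hp3 hη
  refine ⟨C, fun lam Lam g A hl hL hLl hg hi hA => ?_⟩
  have hl0 : 0 < lam := by linarith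
  have hsq : ∀ n : ℕ, ∫⁻ y, ‖gn g n y‖ₑ ^ 2 ≤ ∫⁻ y, ‖g y‖ₑ ^ 2 := by
    intro n
    apply lintegral_mono
    intro y
    simp only
    gcongr
    rw [← ofReal_norm, ← ofReal_norm]
    exact ENNReal.ofReal_le_ofReal (gn_norm g n y)
  refine ⟨?_, fun δ hδ => ?_⟩
  · have h1 := fatou (E := univ) (p := p) (B := C * ENNReal.ofReal (lam ^ η * A ^ (p - 2)) *
      ∫⁻ y, ‖g y‖ₑ ^ 2) (Lam := Lam) hPLB (by linarith) hl0 hg hi hA ?_
    · simpa only [Measure.restrict_univ] using h1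
    · intro n
      simp only [Measure.restrict_univ]
      refine ((hC lam Lam (gn g n) A hl hL hLl (gn_BC hg hA n)
        (fun y => (gn_norm g n y).trans (hA y))).1).trans ?_
      exact mul_le_mul_right (hsq n) _
  · apply fatou hPLB (by linarith) hl0 hg hi hA
    intro n
    refine ((hC lam Lam (gn g n) A hl hL hLl (gn_BC hg hA n)
      (fun y => (gn_norm g n y).trans (hA y))).2 δ hδ).trans ?_
    exact mul_le_mul_right (hsq n) _

end Pool.Agent.H47.LS
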