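import Pool.Agent.H19.LS.PC2
import Pool.Agent.H19.LS.TRACE
import Pool.Agent.H2.LS.SEC1
import Pool.Agent.H62.LS.STEPb

/-!
S2D, part a: the symbols, their kernels, the pieces of the data.
-/

set_option autoImplicit false

namespace Pool.Agent.H47.LS

open MeasureTheory Set Pool.Agent.H83.LS Pool.Agent.H19.LS
open scoped ENNReal NNReal ContDiff

/-- smoothness through the square root -/
theorem contDiff_sqrt_comp {h : ℝ → ℂ} {c : ℝ} (hc : 0 < c) (hh : ContDiff ℝ ∞ h)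
    (h0 : ∀ r, r ≤ c → h r = 0) : ContDiff ℝ ∞ (fun s => h (Real.sqrt s)) := by
  rw [contDiff_iff_contDiffAt]
  intro s
  by_cases hs : s < c ^ 2
  · have h1 : (fun s => h (Real.sqrt s)) =ᶠ[nhds s] fun _ => 0 := by
      filter_upwards [Iio_mem_nhds hs] with s' hs'
      exact h0 _ (Real.sqrt_le_iff.2 ⟨hc.le, le_of_lt hs'⟩)
    exact contDiffAt_const.congr_of_eventuallyEq h1
  · have hs' : s ≠ 0 := by
      have : 0 < c ^ 2 := by positivity
      intro h1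
      rw [h1] at hs
      exact hs this
    exact hh.contDiffAt.comp s (Real.contDiffAt_sqrt hs')

/-- the smooth step -/
noncomputable abbrev st (x : ℝ) : ℝ := Real.smoothTransition x

/-- partition in `ξ₂` -/
noncomputable def cc (k : Fin 3) (s : ℝ) : ℝ :=
  ![st (4 * s), st (-(4 * s)), 1 - st (4 * s) - st (-(4 * s))] k

theorem cc_smooth (k : Fin 3) : ContDiff ℝ ∞ (cc k) := by
  have h1 : ContDiff ℝ ∞ (fun s : ℝ => st (4 * s)) :=
    Real.smoothTransition.contDiff.comp (contDiff_const.mul contDiff_id)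
  have h2 : ContDiff ℝ ∞ (fun s : ℝ => st (-(4 * s))) :=
    Real.smoothTransition.contDiff.comp (contDiff_const.mul contDiff_id).neg
  fin_cases k
  · exact h1
  · exact h2
  · exact (contDiff_const.sub h1).sub h2

theorem cc_sum (s : ℝ) : ∑ k, cc k s = 1 := by
  rw [Fin.sum_univ_three]
  unfold cc
  simp only [Matrix.cons_val_zero, Matrix.cons_val_one, Matrix.cons_val]
  ring

theorem cc0 {s : ℝ} (h : cc 0 s ≠ 0) : 0 < s := by
  by_contra hc
  rw [not_lt] at hc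
  apply h
  exact Real.smoothTransition.zero_of_nonpos (by linarith)

theorem cc1 {s : ℝ} (h : cc 1 s ≠ 0) : s < 0 := by
  by_contra hc
  rw [not_lt] at hc
  apply h
  exact Real.smoothTransition.zero_of_nonpos (by linarith)

theorem cc2 {s : ℝ} (h : cc 2 s ≠ 0) : |s| < 1 / 4 := by
  by_contra hc
  rw [not_lt] at hc
  apply h
  change 1 - st (4 * s) - st (-(4 * s)) = 0
  unfold st
  rcases le_abs.1 hc with h1 | h1
  · rw [Real.smoothTransition.one_of_one_le (x := 4 * s) (by linarith),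
      Real.smoothTransition.zero_of_nonpos (x := -(4 * s)) (by linarith)]
    ring
  · rw [Real.smoothTransition.one_of_one_le (x := -(4 * s)) (by linarith),
      Real.smoothTransition.zero_of_nonpos (x := 4 * s) (by linarith)]
    ring

theorem cc_abs (k : Fin 3) (s : ℝ) : |cc k s| ≤ 1 := by
  have h1 := Real.smoothTransition.nonneg (4 * s)
  have h2 := Real.smoothTransition.nonneg (-(4 * s))
  have h3 := Real.smoothTransition.le_one (4 * s)
  have h4 := Real.smoothTransition.le_one (-(4 * s))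
  rw [abs_le]
  fin_cases k
  · change -1 ≤ st (4 * s) ∧ st (4 * s) ≤ 1
    unfold st
    constructor <;> linarith
  · change -1 ≤ st (-(4 * s)) ∧ st (-(4 * s)) ≤ 1
    unfold st
    constructor <;> linarith
  · change -1 ≤ 1 - st (4 * s) - st (-(4 * s)) ∧ 1 - st (4 * s) - st (-(4 * s)) ≤ 1
    unfold st
    constructor <;> linarith

/-- the symbol of the piece -/
noncomputable def xk (k : Fin 3) (lam Lam : ℝ) (ξ : ℝ × ℝ) : ℂ :=
  ((cc k (ξ.2 / lam) * (chi (Real.sqrt (ξ.1 ^ 2 + ξ.2 ^ 2) / lam) * chis (ξ.1 / Lam)) : ℝ) : ℂ)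

/-- the symbol of the piece with its phase -/
noncomputable def xt (k : Fin 3) (t lam Lam : ℝ) (ξ : ℝ × ℝ) : ℂ :=
  e (t * Real.sqrt (ξ.1 ^ 2 + ξ.2 ^ 2)) * xk k lam Lam ξ

theorem xk_ne {k : Fin 3} {lam Lam : ℝ} {ξ : ℝ × ℝ} (h : xk k lam Lam ξ ≠ 0) :
    cc k (ξ.2 / lam) ≠ 0 ∧ chi (Real.sqrt (ξ.1 ^ 2 + ξ.2 ^ 2) / lam) ≠ 0 ∧
      chis (ξ.1 / Lam) ≠ 0 := by
  unfold xk at h
  rw [Complex.ofReal_ne_zero] at h
  exact ⟨left_ne_zero_of_mul h, left_ne_zero_of_mul (right_ne_zero_of_mul h),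
    right_ne_zero_of_mul (right_ne_zero_of_mul h)⟩

theorem xk_norm (k : Fin 3) (lam Lam : ℝ) (ξ : ℝ × ℝ) : ‖xk k lam Lam ξ‖ ≤ 1 := by
  unfold xk
  rw [Complex.norm_real, Real.norm_eq_abs, abs_mul, abs_mul]
  have h1 := cc_abs k (ξ.2 / lam)
  have h2 := chi_abs (Real.sqrt (ξ.1 ^ 2 + ξ.2 ^ 2) / lam)
  have h3 := chis_abs (ξ.1 / Lam)
  calc |cc k (ξ.2 / lam)| * (|chi (Real.sqrt (ξ.1 ^ 2 + ξ.2 ^ 2) / lam)| * |chis (ξ.1 / Lam)|)
      ≤ 1 * (1 * 1) := by gcongr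
    _ = 1 := by norm_num

theorem norm_le_of_sqrt {ξ : ℝ × ℝ} {r : ℝ} (h : Real.sqrt (ξ.1 ^ 2 + ξ.2 ^ 2) ≤ r) :
    ‖ξ‖ ≤ r := by
  rw [Prod.norm_def]
  apply max_le
  · rw [Real.norm_eq_abs]
    refine (Real.abs_le_sqrt ?_).trans h
    nlinarith [sq_nonneg ξ.2]
  · rw [Real.norm_eq_abs]
    refine (Real.abs_le_sqrt ?_).trans h
    nlinarith [sq_nonneg ξ.1]

theorem xt_TC (k : Fin 3) (t lam Lam : ℝ) (hl : 0 < lam) : TC (xt k t lam Lam) := by
  constructor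
  · have h1 : ContDiff ℝ ∞ (fun s : ℝ => (fun r : ℝ => e (t * r) * ((chi (r / lam) : ℝ) : ℂ))
        (Real.sqrt s)) := by
      apply contDiff_sqrt_comp (h := fun r : ℝ => e (t * r) * ((chi (r / lam) : ℝ) : ℂ))
        (c := lam / 2) (by positivity)
      · exact (contDiff_e.comp (contDiff_const.mul contDiff_id)).mul
          (Complex.ofRealCLM.contDiff.comp (chi_smooth.comp (contDiff_id.div_const lam)))
      · intro r hr
        have : chi (r / lam) = 0 := by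
          unfold chi
          have h2 : r / lam ≤ 1 / 2 := by
            rw [div_le_iff₀ hl]
            linarith
          rw [eta0_one _ (by linarith), eta0_one _ (by linarith), sub_self]
        simp only [this, Complex.ofReal_zero, mul_zero]
    have h2 : ContDiff ℝ ∞ (fun ξ : ℝ × ℝ => ((cc k (ξ.2 / lam) * chis (ξ.1 / Lam) : ℝ) : ℂ)) :=
      Complex.ofRealCLM.contDiff.comp
        (((cc_smooth k).comp (contDiff_snd.div_const lam)).mul
          (chis_smooth.comp (contDiff_fst.div_const Lam)))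
    have h3 : ContDiff ℝ ∞ (fun ξ : ℝ × ℝ => ξ.1 ^ 2 + ξ.2 ^ 2) :=
      (contDiff_fst.pow 2).add (contDiff_snd.pow 2)
    have h4 : xt k t lam Lam = fun ξ : ℝ × ℝ => (fun r : ℝ => e (t * r) *
        ((chi (r / lam) : ℝ) : ℂ)) (Real.sqrt (ξ.1 ^ 2 + ξ.2 ^ 2)) *
        ((cc k (ξ.2 / lam) * chis (ξ.1 / Lam) : ℝ) : ℂ) := by
      funext ξ
      unfold xt xk
      push_cast
      ring
    rw [h4]
    exact (h1.comp h3).mul h2
  · refine HasCompactSupport.of_support_subset_isCompact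
      (isCompact_closedBall (0 : ℝ × ℝ) (2 * lam)) ?_
    intro ξ hξ
    have h1 := (xk_ne (right_ne_zero_of_mul hξ)).2.1
    have h2 := (chi_supp _ h1).2
    rw [div_le_iff₀ hl] at h2
    rw [mem_closedBall_zero_iff]
    exact norm_le_of_sqrt h2

theorem xt_zero (k : Fin 3) (lam Lam : ℝ) : xt k 0 lam Lam = xk k lam Lam := by
  funext ξ
  unfold xt
  rw [zero_mul, e_zero, one_mul]

theorem xk_TC (k : Fin 3) (lam Lam : ℝ) (hl : 0 < lam) : TC (xk k lam Lam) :=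
  xt_zero k lam Lam ▸ xt_TC k 0 lam Lam hl

/-- the normalized family of symbols -/
noncomputable def Ps (k : Fin 3) (q : (Fin 1 → ℝ) × (ℝ × ℝ)) : ℂ :=
  ((cc k q.2.2 * (chi (Real.sqrt ((q.1 0) ^ 2 * q.2.1 ^ 2 + q.2.2 ^ 2)) * chis q.2.1) : ℝ) : ℂ)

theorem Ps_smooth (k : Fin 3) : ContDiff ℝ ∞ (Ps k) := by
  have h1 : ContDiff ℝ ∞ (fun s : ℝ => (fun r : ℝ => ((chi r : ℝ) : ℂ)) (Real.sqrt s)) := by
    apply contDiff_sqrt_comp (h := fun r : ℝ => ((chi r : ℝ) : ℂ)) (c := 1 / 2) (by norm_num)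
    · exact Complex.ofRealCLM.contDiff.comp chi_smooth
    · intro r hr
      have : chi r = 0 := by
        unfold chi
        rw [eta0_one _ (by linarith), eta0_one _ (by linarith), sub_self]
      simp only [this, Complex.ofReal_zero]
  have h0 : ContDiff ℝ ∞ (fun q : (Fin 1 → ℝ) × (ℝ × ℝ) => q.1 0) :=
    (contDiff_apply ℝ ℝ (0 : Fin 1)).comp contDiff_fst
  have h01 : ContDiff ℝ ∞ (fun q : (Fin 1 → ℝ) × (ℝ × ℝ) => q.2.1) := contDiff_fst.comp contDiff_snd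
  have h02 : ContDiff ℝ ∞ (fun q : (Fin 1 → ℝ) × (ℝ × ℝ) => q.2.2) := contDiff_snd.comp contDiff_snd
  have h3 : ContDiff ℝ ∞ (fun q : (Fin 1 → ℝ) × (ℝ × ℝ) => (q.1 0) ^ 2 * q.2.1 ^ 2 + q.2.2 ^ 2) :=
    ((h0.pow 2).mul (h01.pow 2)).add (h02.pow 2)
  have h2 : ContDiff ℝ ∞ (fun q : (Fin 1 → ℝ) × (ℝ × ℝ) => ((cc k q.2.2 * chis q.2.1 : ℝ) : ℂ)) :=
    Complex.ofRealCLM.contDiff.comp (((cc_smooth k).comp h02).mul (chis_smooth.comp h01))
  have h4 : Ps k = fun q : (Fin 1 → ℝ) × (ℝ × ℝ) => (fun r : ℝ => ((chi r : ℝ) : ℂ))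
      (Real.sqrt ((q.1 0) ^ 2 * q.2.1 ^ 2 + q.2.2 ^ 2)) *
      ((cc k q.2.2 * chis q.2.1 : ℝ) : ℂ) := by
    funext q
    unfold Ps
    push_cast
    ring
  rw [h4]
  exact (h1.comp h3).mul h2

theorem Ps_supp (k : Fin 3) (q : (Fin 1 → ℝ) × (ℝ × ℝ)) (h : 4 < ‖q.2‖) : Ps k q = 0 := by
  by_contra hc
  unfold Ps at hc
  rw [← ne_eq, Complex.ofReal_ne_zero] at hc
  have h1 := (chi_supp _ (left_ne_zero_of_mul (right_ne_zero_of_mul hc))).2
  have h2 := chis_supp _ (right_ne_zero_of_mul (right_ne_zero_of_mul hc))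
  have h3 : |q.2.2| ≤ 2 := by
    refine (Real.abs_le_sqrt ?_).trans h1
    have := mul_nonneg (sq_nonneg (q.1 0)) (sq_nonneg q.2.1)
    linarith
  have h4 : |q.2.1| ≤ 4 := by
    rw [abs_le]
    constructor <;> linarith [h2.1, h2.2]
  rw [Prod.norm_def, Real.norm_eq_abs, Real.norm_eq_abs] at h
  have := max_le h4 (h3.trans (by norm_num : (2 : ℝ) ≤ 4))
  linarith

theorem xk_Ps (k : Fin 3) (lam Lam : ℝ) (hl : 0 < lam) (hL : 0 < Lam) (z : ℝ × ℝ) :
    xk k lam Lam (Lam * z.1 + 0 * z.2, 0 * z.1 + lam * z.2) = Ps k (fun _ => Lam / lam, z) := by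
  unfold xk Ps
  simp only [zero_mul, add_zero, zero_add]
  have h1 : lam * z.2 / lam = z.2 := by field_simp
  have h2 : Lam * z.1 / Lam = z.1 := by field_simp
  have h3 : Real.sqrt ((Lam * z.1) ^ 2 + (lam * z.2) ^ 2) / lam =
      Real.sqrt ((Lam / lam) ^ 2 * z.1 ^ 2 + z.2 ^ 2) := by
    rw [eq_comm, eq_div_iff hl.ne']
    nth_rewrite 2 [← Real.sqrt_sq hl.le]
    rw [← Real.sqrt_mul (by positivity)]
    congr 1
    field_simp
  rw [h1, h2, h3]

/-- the kernels of the pieces are bounded in `L¹` -/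
theorem kernel_bound (hKB : T_KB) : ∃ C : ℝ≥0, ∀ (k : Fin 3) (lam Lam : ℝ), 0 < lam → 0 < Lam →
    Lam ≤ 4 * lam → ∫⁻ y, ‖Fi (xk k lam Lam) y‖ₑ ≤ C := by
  have hK : ∀ k : Fin 3, ∃ C : ℝ, ∀ p ∈ Icc (fun _ : Fin 1 => (0 : ℝ)) (fun _ => 4),
      ∀ y : ℝ × ℝ, ‖Fi (fun ζ => Ps k (p, ζ)) y‖ * ((1 + |y.1|) * (1 + |y.2|)) ^ 2 ≤ C := by
    intro k
    exact hKB 1 (Icc (fun _ : Fin 1 => (0 : ℝ)) (fun _ => 4)) univ (Ps k) 4 isCompact_Icc isOpen_univ
      (subset_univ _) (Ps_smooth k).contDiffOn (fun p _ ζ h => Ps_supp k (p, ζ) h) 2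
  choose C hC using hK
  have hJ := Pool.Agent.H2.LS.J_lt_top
  refine ⟨∑ k, (ENNReal.ofReal (C k) * ∫⁻ x : ℝ × ℝ,
    ENNReal.ofReal ((Pool.Agent.H2.LS.PP x ^ 2)⁻¹)).toNNReal, fun k lam Lam hl hL hLl => ?_⟩
  have h1 : ∀ y : ℝ × ℝ, ‖Fi (xk k lam Lam) y‖ₑ = ENNReal.ofReal |Lam * lam - 0 * 0| *
      ‖Fi (fun ζ => Ps k (fun _ => Lam / lam, ζ)) (Lam * y.1 + 0 * y.2, 0 * y.1 + lam * y.2)‖ₑ := by
    intro y
    unfold Fi
    rw [Pool.Agent.H2.LS.integral_lin Lam 0 0 lam (by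
      rw [mul_zero, sub_zero]
      positivity), enorm_smul]
    congr 1
    · rw [← ofReal_norm, Real.norm_eq_abs, abs_abs]
    · congr 1
      refine integral_congr_ae (Filter.Eventually.of_forall fun z => ?_)
      simp only
      rw [xk_Ps k lam Lam hl hL z]
      congr 2
      ring
  have h2 : ∫⁻ y, ‖Fi (xk k lam Lam) y‖ₑ =
      ∫⁻ y, ‖Fi (fun ζ => Ps k (fun _ => Lam / lam, ζ)) y‖ₑ := by
    simp_rw [h1]
    rw [lintegral_const_mul' _ _ ENNReal.ofReal_ne_top]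
    exact (Pool.Agent.H2.LS.lintegral_lin Lam 0 0 lam (by
      rw [mul_zero, sub_zero]
      positivity) (fun y => ‖Fi (fun ζ => Ps k (fun _ => Lam / lam, ζ)) y‖ₑ)).symm
  have hmem : (fun _ : Fin 1 => Lam / lam) ∈ Icc (fun _ : Fin 1 => (0 : ℝ)) (fun _ => 4) := by
    refine ⟨fun _ => by positivity, fun _ => ?_⟩
    rw [div_le_iff₀ hl]
    exact hLl
  have hCk : 0 ≤ C k := by
    refine le_trans ?_ (hC k _ hmem 0)
    positivity
  rw [h2]
  calc ∫⁻ y, ‖Fi (fun ζ => Ps k (fun _ => Lam / lam, ζ)) y‖ₑ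
      ≤ ∫⁻ y : ℝ × ℝ, ENNReal.ofReal (C k) * ENNReal.ofReal ((Pool.Agent.H2.LS.PP y ^ 2)⁻¹) := by
        apply lintegral_mono
        intro y
        simp only
        rw [← ENNReal.ofReal_mul hCk, ← ofReal_norm]
        apply ENNReal.ofReal_le_ofReal
        have h3 := hC k _ hmem y
        have h4 : 0 < Pool.Agent.H2.LS.PP y ^ 2 := by
          have := Pool.Agent.H2.LS.one_le_PP y
          positivity
        rw [← div_eq_mul_inv, le_div_iff₀ h4]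
        exact h3
    _ = ENNReal.ofReal (C k) * ∫⁻ x : ℝ × ℝ,
          ENNReal.ofReal ((Pool.Agent.H2.LS.PP x ^ 2)⁻¹) :=
        lintegral_const_mul' _ _ ENNReal.ofReal_ne_top
    _ = ((ENNReal.ofReal (C k) * ∫⁻ x : ℝ × ℝ,
          ENNReal.ofReal ((Pool.Agent.H2.LS.PP x ^ 2)⁻¹)).toNNReal : ℝ≥0∞) :=
        (ENNReal.coe_toNNReal (ENNReal.mul_lt_top ENNReal.ofReal_lt_top hJ).ne).symm
    _ ≤ _ := by
        rw [ENNReal.coe_le_coe]
        exact Finset.single_le_sum (f := fun k => (ENNReal.ofReal (C k) * ∫⁻ x : ℝ × ℝ,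
          ENNReal.ofReal ((Pool.Agent.H2.LS.PP x ^ 2)⁻¹)).toNNReal) (fun _ _ => zero_le)
          (Finset.mem_univ k)

end Pool.Agent.H47.LS
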