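import Pool.Agent.H47.LS.S2Da

/-!
S2D, part b: the pieces of the data and the scaled estimate.
-/

set_option autoImplicit false

namespace Pool.Agent.H47.LS

open MeasureTheory Set Pool.Agent.H83.LS Pool.Agent.H19.LS
open scoped ENNReal NNReal ContDiff

/-- the pieces of the data -/
noncomputable def bb (k : Fin 3) (lam Lam : ℝ) (g : ℝ × ℝ → ℂ) (ζ : ℝ × ℝ) : ℂ :=
  ((lam ^ 2 : ℝ) : ℂ) * (xk k lam Lam (lam * ζ.1, lam * ζ.2) * Ff g (lam * ζ.1, lam * ζ.2))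

variable {lam Lam : ℝ} {g : ℝ × ℝ → ℂ}

theorem bb_ne {k : Fin 3} {ζ : ℝ × ℝ} (hl : 0 < lam) (h : bb k lam Lam g ζ ≠ 0) :
    cc k ζ.2 ≠ 0 ∧ (1 / 2 ≤ Real.sqrt (ζ.1 ^ 2 + ζ.2 ^ 2) ∧ Real.sqrt (ζ.1 ^ 2 + ζ.2 ^ 2) ≤ 2) ∧
      (1 / 4 ≤ lam * ζ.1 / Lam ∧ lam * ζ.1 / Lam ≤ 4) := by
  unfold bb at h
  obtain ⟨h1, h2, h3⟩ := xk_ne (left_ne_zero_of_mul (right_ne_zero_of_mul h))
  simp only at h1 h2 h3
  have e1 : lam * ζ.2 / lam = ζ.2 := by field_simp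
  have e2 : Real.sqrt ((lam * ζ.1) ^ 2 + (lam * ζ.2) ^ 2) / lam =
      Real.sqrt (ζ.1 ^ 2 + ζ.2 ^ 2) := by
    rw [div_eq_iff hl.ne']
    nth_rewrite 3 [← Real.sqrt_sq hl.le]
    rw [← Real.sqrt_mul (by positivity)]
    congr 1
    ring
  rw [e1] at h1
  rw [e2] at h2
  exact ⟨h1, chi_supp _ h2, chis_supp _ h3⟩

theorem bb_TC (hPLB : T_PLB) (k : Fin 3) (hl : 0 < lam) (hg : BC g) :
    TC (bb k lam Lam g) := by
  have h0 : ContDiff ℝ ∞ (fun ζ : ℝ × ℝ => (lam * ζ.1, lam * ζ.2)) :=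
    (contDiff_const.mul contDiff_fst).prodMk (contDiff_const.mul contDiff_snd)
  constructor
  · exact contDiff_const.mul ((((xk_TC k lam Lam hl).1).comp h0).mul (((hPLB g hg).1).comp h0))
  · refine HasCompactSupport.of_support_subset_isCompact
      (isCompact_closedBall (0 : ℝ × ℝ) 2) ?_
    intro ζ hζ
    rw [mem_closedBall_zero_iff]
    exact norm_le_of_sqrt (bb_ne hl hζ).2.1.2

/-- the evolution of the pieces -/
theorem W_bb (k : Fin 3) (t : ℝ) (hl : 0 < lam) (x : ℝ × ℝ) :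
    W (t * lam) (bb k lam Lam g) (lam * x.1, lam * x.2) =
      Fi (fun ξ => xt k t lam Lam ξ * Ff g ξ) x := by
  unfold W Fi
  rw [Pool.Agent.H2.LS.integral_lin lam 0 0 lam (by
    rw [mul_zero, sub_zero]
    positivity) (fun ξ : ℝ × ℝ => e (x.1 * ξ.1 + x.2 * ξ.2) * (xt k t lam Lam ξ * Ff g ξ)),
    ← integral_smul]
  refine integral_congr_ae (Filter.Eventually.of_forall fun ζ => ?_)
  simp only [zero_mul, add_zero, zero_add, mul_zero, sub_zero]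
  unfold bb xt
  have e2 : Real.sqrt ((lam * ζ.1) ^ 2 + (lam * ζ.2) ^ 2) =
      lam * Real.sqrt (ζ.1 ^ 2 + ζ.2 ^ 2) := by
    nth_rewrite 3 [← Real.sqrt_sq hl.le]
    rw [← Real.sqrt_mul (by positivity)]
    congr 1
    ring
  rw [e2, e_add, abs_of_pos (by positivity : (0 : ℝ) < lam * lam), Complex.real_smul]
  have e3 : lam * x.1 * ζ.1 + lam * x.2 * ζ.2 = x.1 * (lam * ζ.1) + x.2 * (lam * ζ.2) := by ring
  have e4 : t * lam * Real.sqrt (ζ.1 ^ 2 + ζ.2 ^ 2) = t * (lam * Real.sqrt (ζ.1 ^ 2 + ζ.2 ^ 2)) := by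
    ring
  rw [e3, e4]
  push_cast
  ring

/-- the convolution as a sum of pieces -/
theorem cv_eq (hPLB : T_PLB) (t : ℝ) (hl : 0 < lam) (hg : BC g) (x : ℝ × ℝ) :
    cv (KK t lam Lam) g x = ∑ k, W (t * lam) (bb k lam Lam g) (lam * x.1, lam * x.2) := by
  have hsum : ∀ ξ : ℝ × ℝ, e (t * Real.sqrt (ξ.1 ^ 2 + ξ.2 ^ 2)) *
      ((chi (Real.sqrt (ξ.1 ^ 2 + ξ.2 ^ 2) / lam) * chis (ξ.1 / Lam) : ℝ) : ℂ) =
      ∑ k, xt k t lam Lam ξ := by
    intro ξ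
    unfold xt xk
    rw [← Finset.mul_sum, ← Complex.ofReal_sum, ← Finset.sum_mul, cc_sum, one_mul]
  have hKK : KK t lam Lam = Fi (fun ξ => ∑ k, xt k t lam Lam ξ) := by
    funext y
    unfold KK Fi
    refine integral_congr_ae (Filter.Eventually.of_forall fun ξ => ?_)
    simp only
    rw [← hsum ξ, e_add]
    ring
  have hTC : TC (fun ξ => ∑ k, xt k t lam Lam ξ) :=
    TC.sum Finset.univ (fun k => xt k t lam Lam) (fun k _ => xt_TC k t lam Lam hl)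
  have h1 := (hPLB g hg).2.2 _ hTC x
  unfold cv
  rw [hKK]
  rw [← h1]
  have h2 : (fun ζ => (∑ k, xt k t lam Lam ζ) * Ff g ζ) =
      fun ζ => ∑ k, xt k t lam Lam ζ * Ff g ζ := by
    funext ζ
    rw [Finset.sum_mul]
  rw [h2, Fi_sum Finset.univ (fun k => fun ζ => xt k t lam Lam ζ * Ff g ζ)]
  · refine Finset.sum_congr rfl fun k _ => ?_
    rw [W_bb k t hl x]
  · intro k _
    have h3 : TC (fun ζ => Ff g ζ * xt k t lam Lam ζ) := TC.mul (hPLB g hg).1 (xt_TC k t lam Lam hl)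
    have h4 := h3.integrable
    refine h4.congr (Filter.Eventually.of_forall fun ζ => ?_)
    simp only
    ring

/-- sup norm of the pieces -/
theorem supn_bb (hPLB : T_PLB) {C : ℝ≥0} (k : Fin 3) (hl : 0 < lam)
    (hC : ∫⁻ y, ‖Fi (xk k lam Lam) y‖ₑ ≤ C) (hg : BC g) {A : ℝ} (hA : ∀ y, ‖g y‖ ≤ A) :
    supn (Fi (bb k lam Lam g)) ≤ C * ENNReal.ofReal A := by
  unfold supn
  apply iSup_le
  intro X
  have h1 : Fi (bb k lam Lam g) X = Fi (fun ξ => xk k lam Lam ξ * Ff g ξ) (X.1 / lam, X.2 / lam) := by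
    have h2 := W_bb (Lam := Lam) (g := g) k 0 hl (X.1 / lam, X.2 / lam)
    rw [xt_zero] at h2
    rw [← h2]
    unfold W Fi
    refine integral_congr_ae (Filter.Eventually.of_forall fun ξ => ?_)
    simp only
    have e1 : lam * (X.1 / lam) = X.1 := by field_simp
    have e2 : lam * (X.2 / lam) = X.2 := by field_simp
    rw [e1, e2, zero_mul, zero_mul, add_zero]
  rw [h1, (hPLB g hg).2.2 _ (xk_TC k lam Lam hl)]
  refine (enorm_integral_le_lintegral_enorm _).trans ?_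
  calc ∫⁻ y', ‖Fi (xk k lam Lam) ((X.1 / lam, X.2 / lam) - y') * g y'‖ₑ
      ≤ ∫⁻ y', ‖Fi (xk k lam Lam) ((X.1 / lam, X.2 / lam) - y')‖ₑ * ENNReal.ofReal A := by
        apply lintegral_mono
        intro y'
        simp only
        rw [enorm_mul]
        gcongr
        rw [← ofReal_norm]
        exact ENNReal.ofReal_le_ofReal (hA y')
    _ = (∫⁻ y', ‖Fi (xk k lam Lam) ((X.1 / lam, X.2 / lam) - y')‖ₑ) * ENNReal.ofReal A :=
        lintegral_mul_const' _ _ ENNReal.ofReal_ne_top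
    _ = (∫⁻ y', ‖Fi (xk k lam Lam) y'‖ₑ) * ENNReal.ofReal A := by
        rw [lintegral_sub_left_eq_self (fun y' => ‖Fi (xk k lam Lam) y'‖ₑ) (X.1 / lam, X.2 / lam)]
    _ ≤ C * ENNReal.ofReal A := by gcongr

/-- energy of the pieces -/
theorem l2_bb (hPLB : T_PLB) (k : Fin 3) (hl : 0 < lam) (hg : BC g) :
    l2 (bb k lam Lam g) ≤ ENNReal.ofReal (lam ^ 2) * ∫⁻ y, ‖g y‖ₑ ^ 2 := by
  have h1 : ∀ ζ : ℝ × ℝ, ‖bb k lam Lam g ζ‖ₑ ^ 2 ≤
      ENNReal.ofReal (lam ^ 4) * ‖Ff g (lam * ζ.1 + 0 * ζ.2, 0 * ζ.1 + lam * ζ.2)‖ₑ ^ 2 := by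
    intro ζ
    unfold bb
    rw [enorm_mul, enorm_mul, mul_pow, mul_pow]
    simp only [zero_mul, add_zero, zero_add]
    have e1 : ‖((lam ^ 2 : ℝ) : ℂ)‖ₑ ^ 2 = ENNReal.ofReal (lam ^ 4) := by
      rw [← ofReal_norm, Complex.norm_real, Real.norm_eq_abs, abs_of_pos (by positivity),
        ← ENNReal.ofReal_pow (by positivity)]
      congr 1
      ring
    have e2 : ‖xk k lam Lam (lam * ζ.1, lam * ζ.2)‖ₑ ^ 2 ≤ 1 := by
      apply pow_le_one₀ (by positivity)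
      rw [← ofReal_norm]
      exact ENNReal.ofReal_le_one.2 (xk_norm k lam Lam _)
    rw [e1]
    gcongr
    calc ‖xk k lam Lam (lam * ζ.1, lam * ζ.2)‖ₑ ^ 2 * ‖Ff g (lam * ζ.1, lam * ζ.2)‖ₑ ^ 2
        ≤ 1 * ‖Ff g (lam * ζ.1, lam * ζ.2)‖ₑ ^ 2 := by gcongr
      _ = _ := one_mul _
  have hd : lam * lam - 0 * 0 ≠ 0 := by
    rw [mul_zero, sub_zero]
    positivity
  have h2 := Pool.Agent.H2.LS.lintegral_lin lam 0 0 lam hd (fun y => ‖Ff g y‖ₑ ^ 2)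
  rw [(hPLB g hg).2.1] at h2
  unfold l2
  calc ∫⁻ ζ, ‖bb k lam Lam g ζ‖ₑ ^ 2
      ≤ ∫⁻ ζ : ℝ × ℝ, ENNReal.ofReal (lam ^ 4) *
          ‖Ff g (lam * ζ.1 + 0 * ζ.2, 0 * ζ.1 + lam * ζ.2)‖ₑ ^ 2 := lintegral_mono h1
    _ = ENNReal.ofReal (lam ^ 4) * ∫⁻ ζ : ℝ × ℝ,
          ‖Ff g (lam * ζ.1 + 0 * ζ.2, 0 * ζ.1 + lam * ζ.2)‖ₑ ^ 2 :=
        lintegral_const_mul' _ _ ENNReal.ofReal_ne_top
    _ = ENNReal.ofReal (lam ^ 2) * ∫⁻ y, ‖g y‖ₑ ^ 2 := by
        rw [h2, ← mul_assoc, ← ENNReal.ofReal_mul (by positivity)]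
        congr 2
        rw [mul_zero, sub_zero, abs_of_pos (by positivity)]
        ring

/-- scaling in time -/
theorem time_scale (hl : 0 < lam) (G : ℝ → ℝ≥0∞) :
    ∫⁻ t in Icc (1 : ℝ) 2, G (t * lam) ≤ ENNReal.ofReal lam⁻¹ * ∫⁻ T in Icc 0 (2 * lam), G T := by
  have h1 : ∫⁻ t in Icc (1 : ℝ) 2, G (t * lam) =
      ∫⁻ t : ℝ, (Icc lam (2 * lam)).indicator G (lam * t) := by
    rw [← lintegral_indicator measurableSet_Icc]
    refine lintegral_congr fun t => ?_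
    by_cases ht : t ∈ Icc (1 : ℝ) 2
    · rw [indicator_of_mem ht, indicator_of_mem, mul_comm]
      rw [mem_Icc] at ht ⊢
      constructor <;> nlinarith [ht.1, ht.2]
    · rw [indicator_of_notMem ht, indicator_of_notMem]
      intro hc
      apply ht
      rw [mem_Icc] at hc ⊢
      constructor
      · nlinarith [hc.1, hc.2]
      · nlinarith [hc.1, hc.2]
  have h2 : ∫⁻ t : ℝ, (Icc lam (2 * lam)).indicator G (lam * t) =
      ENNReal.ofReal lam⁻¹ * ∫⁻ T, (Icc lam (2 * lam)).indicator G T := by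
    have h3 := (Homeomorph.mulLeft₀ lam hl.ne').measurableEmbedding.lintegral_map
      (μ := volume) ((Icc lam (2 * lam)).indicator G)
    have h4 : Measure.map (Homeomorph.mulLeft₀ lam hl.ne') volume =
        ENNReal.ofReal |lam⁻¹| • (volume : Measure ℝ) := Real.map_volume_mul_left hl.ne'
    rw [h4, lintegral_smul_measure, smul_eq_mul, abs_of_pos (inv_pos.2 hl)] at h3
    exact h3.symm
  rw [h1, h2, lintegral_indicator measurableSet_Icc]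
  gcongr

/-- scaling in space -/
theorem space_scale (hl : 0 < lam) (F : ℝ × ℝ → ℝ≥0∞) :
    ∫⁻ x : ℝ × ℝ, F (lam * x.1, lam * x.2) = ENNReal.ofReal (lam ^ 2)⁻¹ * ∫⁻ X, F X := by
  have hd : lam * lam - 0 * 0 ≠ 0 := by
    rw [mul_zero, sub_zero]
    positivity
  rw [Pool.Agent.H2.LS.lintegral_lin lam 0 0 lam hd F, ← mul_assoc,
    ← ENNReal.ofReal_mul (by positivity)]
  have e1 : (lam ^ 2)⁻¹ * |lam * lam - 0 * 0| = 1 := by
    rw [mul_zero, sub_zero, abs_of_pos (by positivity)]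
    field_simp
  rw [e1, ENNReal.ofReal_one, one_mul]
  refine lintegral_congr fun x => ?_
  simp only [zero_mul, add_zero, zero_add]

end Pool.Agent.H47.LS
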