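import Pool.Agent.H47.LS.S2Db

/-!
S2D, part c: the core estimate with a weight.
-/

set_option autoImplicit false

namespace Pool.Agent.H47.LS

open MeasureTheory Set Pool.Agent.H83.LS Pool.Agent.H19.LS
open scoped ENNReal NNReal ContDiff

variable {lam Lam : ℝ} {g : ℝ × ℝ → ℂ}

theorem three_pow {p : ℝ} (hp : 2 < p) (hp3 : p ≤ 3) (z : Fin 3 → ℂ) :
    ‖∑ k, z k‖ₑ ^ p ≤ 9 * ∑ k, ‖z k‖ₑ ^ p := by
  have h1 : ‖∑ k, z k‖ₑ ≤ ∑ k, ‖z k‖ₑ := enorm_sum_le Finset.univ z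
  calc ‖∑ k, z k‖ₑ ^ p ≤ (∑ k, ‖z k‖ₑ) ^ p := ENNReal.rpow_le_rpow h1 (by linarith)
    _ ≤ ((Finset.univ : Finset (Fin 3)).card : ℝ≥0∞) ^ (p - 1) * ∑ k, ‖z k‖ₑ ^ p :=
        ENNReal.rpow_sum_le_const_mul_sum_rpow Finset.univ (fun k => ‖z k‖ₑ) (by linarith)
    _ ≤ 9 * ∑ k, ‖z k‖ₑ ^ p := by
        gcongr
        rw [Finset.card_univ, Fintype.card_fin]
        calc ((3 : ℕ) : ℝ≥0∞) ^ (p - 1) ≤ ((3 : ℕ) : ℝ≥0∞) ^ (2 : ℝ) :=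
              ENNReal.rpow_le_rpow_of_exponent_le (by norm_num) (by linarith)
          _ = 9 := by
              rw [ENNReal.rpow_two]
              norm_num

/-- measurability of the weighted pieces -/
theorem meas_piece {p : ℝ} {w : ℝ → ℝ≥0∞} (hw : Measurable w) {b : ℝ × ℝ → ℂ} (hb : TC b) :
    Measurable fun q : ℝ × (ℝ × ℝ) => w (lam * q.2.1) *
      ‖W (q.1 * lam) b (lam * q.2.1, lam * q.2.2)‖ₑ ^ p := by
  have h1 := W_cont b hb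
  have h2 : Continuous fun q : ℝ × (ℝ × ℝ) => W (q.1 * lam) b (lam * q.2.1, lam * q.2.2) :=
    h1.comp (g := fun p : ℝ × (ℝ × ℝ) => W p.1 b p.2)
      (f := fun q : ℝ × (ℝ × ℝ) => (q.1 * lam, (lam * q.2.1, lam * q.2.2))) (by fun_prop)
  exact (hw.comp (by fun_prop)).mul (h2.measurable.enorm.pow_const p)

theorem piece_est {p η κ ρ : ℝ} {C1 CS : ℝ≥0} {w : ℝ → ℝ≥0∞} {S : Set (ℝ × ℝ)} {α' θ A : ℝ}
    (hp : 2 < p) (hl : 1 ≤ lam) (k : Fin 3)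
    (hPLB : T_PLB) (hker : ∫⁻ y, ‖Fi (xk k lam Lam) y‖ₑ ≤ C1) (hρ : 0 < ρ)
    (hPS : PS p κ lam w S α' (CS * ENNReal.ofReal (lam ^ (1 + η) * ρ ^ (2 - p / 2))))
    (hcos : |Real.cos θ| + 2 * α' ≤ 10 * κ) (hTS : TS (S ∩ tau θ α') (bb k lam Lam g))
    (hg : BC g) (hA : ∀ y, ‖g y‖ ≤ A) :
    ∫⁻ t in Icc (1 : ℝ) 2, ∫⁻ x : ℝ × ℝ, w (lam * x.1) *
      ‖W (t * lam) (bb k lam Lam g) (lam * x.1, lam * x.2)‖ₑ ^ p ≤
    CS * C1 ^ (p - 2) * ENNReal.ofReal (lam ^ η * ρ ^ (2 - p / 2) * A ^ (p - 2)) *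
      ∫⁻ y, ‖g y‖ₑ ^ 2 := by
  have hl0 : 0 < lam := by linarith
  have hA0 : 0 ≤ A := (norm_nonneg _).trans (hA 0)
  have h1 : ∀ t : ℝ, ∫⁻ x : ℝ × ℝ, w (lam * x.1) *
      ‖W (t * lam) (bb k lam Lam g) (lam * x.1, lam * x.2)‖ₑ ^ p =
      ENNReal.ofReal (lam ^ 2)⁻¹ * ∫⁻ X : ℝ × ℝ, w X.1 *
        ‖W (t * lam) (bb k lam Lam g) X‖ₑ ^ p := fun t =>
    space_scale hl0 (fun X : ℝ × ℝ => w X.1 * ‖W (t * lam) (bb k lam Lam g) X‖ₑ ^ p)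
  simp_rw [h1]
  rw [lintegral_const_mul' _ _ ENNReal.ofReal_ne_top]
  have h2 := time_scale hl0 (fun T : ℝ => ∫⁻ X : ℝ × ℝ, w X.1 * ‖W T (bb k lam Lam g) X‖ₑ ^ p)
  have h3 := hPS θ (bb k lam Lam g) hcos hTS
  have h4 := supn_bb hPLB k hl0 hker hg hA
  have h5 := l2_bb (Lam := Lam) hPLB k hl0 hg
  have h6 : supn (Fi (bb k lam Lam g)) ^ (p - 2) ≤ C1 ^ (p - 2) * ENNReal.ofReal (A ^ (p - 2)) := by
    calc supn (Fi (bb k lam Lam g)) ^ (p - 2) ≤ (C1 * ENNReal.ofReal A) ^ (p - 2) :=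
          ENNReal.rpow_le_rpow h4 (by linarith)
      _ = _ := by
          rw [ENNReal.mul_rpow_of_nonneg _ _ (by linarith),
            ENNReal.ofReal_rpow_of_nonneg hA0 (by linarith)]
  calc ENNReal.ofReal (lam ^ 2)⁻¹ * ∫⁻ t in Icc (1 : ℝ) 2, ∫⁻ X : ℝ × ℝ, w X.1 *
        ‖W (t * lam) (bb k lam Lam g) X‖ₑ ^ p
      ≤ ENNReal.ofReal (lam ^ 2)⁻¹ * (ENNReal.ofReal lam⁻¹ *
          ((CS * ENNReal.ofReal (lam ^ (1 + η) * ρ ^ (2 - p / 2))) *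
            (C1 ^ (p - 2) * ENNReal.ofReal (A ^ (p - 2))) *
              (ENNReal.ofReal (lam ^ 2) * ∫⁻ y, ‖g y‖ₑ ^ 2))) := by
        gcongr
        refine h2.trans ?_
        gcongr
        refine h3.trans ?_
        gcongr
    _ = CS * C1 ^ (p - 2) * (ENNReal.ofReal (lam ^ 2)⁻¹ * ENNReal.ofReal lam⁻¹ *
          ENNReal.ofReal (lam ^ (1 + η) * ρ ^ (2 - p / 2)) * ENNReal.ofReal (A ^ (p - 2)) *
            ENNReal.ofReal (lam ^ 2)) * ∫⁻ y, ‖g y‖ₑ ^ 2 := by ring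
    _ = _ := by
        rw [← ENNReal.ofReal_mul (by positivity), ← ENNReal.ofReal_mul (by positivity),
          ← ENNReal.ofReal_mul (by positivity), ← ENNReal.ofReal_mul (by positivity)]
        congr 3
        rw [Real.rpow_add hl0, Real.rpow_one]
        field_simp

theorem core {p η κ ρ : ℝ} {C1 CS : ℝ≥0} {w : ℝ → ℝ≥0∞} {S : Set (ℝ × ℝ)} {α' A : ℝ}
    {θ : Fin 3 → ℝ} (hp : 2 < p) (hp3 : p ≤ 3) (hl : 1 ≤ lam)
    (hPLB : T_PLB) (hker : ∀ k, ∫⁻ y, ‖Fi (xk k lam Lam) y‖ₑ ≤ C1) (hρ : 0 < ρ) (hw : Measurable w)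
    (hPS : PS p κ lam w S α' (CS * ENNReal.ofReal (lam ^ (1 + η) * ρ ^ (2 - p / 2))))
    (hcos : ∀ k, |Real.cos (θ k)| + 2 * α' ≤ 10 * κ)
    (hTS : ∀ k, TS (S ∩ tau (θ k) α') (bb k lam Lam g))
    (hg : BC g) (hA : ∀ y, ‖g y‖ ≤ A) :
    ∫⁻ t in Icc (1 : ℝ) 2, ∫⁻ x : ℝ × ℝ, w (lam * x.1) * ‖cv (KK t lam Lam) g x‖ₑ ^ p ≤
    27 * CS * C1 ^ (p - 2) * ENNReal.ofReal (lam ^ η * ρ ^ (2 - p / 2) * A ^ (p - 2)) *
      ∫⁻ y, ‖g y‖ₑ ^ 2 := by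
  have hl0 : 0 < lam := by linarith
  have hm : ∀ k, Measurable fun q : ℝ × (ℝ × ℝ) => w (lam * q.2.1) *
      ‖W (q.1 * lam) (bb k lam Lam g) (lam * q.2.1, lam * q.2.2)‖ₑ ^ p :=
    fun k => meas_piece hw (hTS k).1
  have hmx : ∀ (k : Fin 3) (t : ℝ), Measurable fun x : ℝ × ℝ => w (lam * x.1) *
      ‖W (t * lam) (bb k lam Lam g) (lam * x.1, lam * x.2)‖ₑ ^ p := fun k t =>
    (hm k).comp (measurable_prodMk_left (x := t))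
  calc ∫⁻ t in Icc (1 : ℝ) 2, ∫⁻ x : ℝ × ℝ, w (lam * x.1) * ‖cv (KK t lam Lam) g x‖ₑ ^ p
      ≤ ∫⁻ t in Icc (1 : ℝ) 2, ∫⁻ x : ℝ × ℝ, 9 * ∑ k, w (lam * x.1) *
          ‖W (t * lam) (bb k lam Lam g) (lam * x.1, lam * x.2)‖ₑ ^ p := by
        apply lintegral_mono
        intro t
        apply lintegral_mono
        intro x
        simp only
        rw [cv_eq hPLB t hl0 hg x, ← Finset.mul_sum, mul_left_comm]
        gcongr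
        exact three_pow hp hp3 _
    _ = 9 * ∑ k, ∫⁻ t in Icc (1 : ℝ) 2, ∫⁻ x : ℝ × ℝ, w (lam * x.1) *
          ‖W (t * lam) (bb k lam Lam g) (lam * x.1, lam * x.2)‖ₑ ^ p := by
        have e1 : ∀ t : ℝ, ∫⁻ x : ℝ × ℝ, 9 * ∑ k, w (lam * x.1) *
            ‖W (t * lam) (bb k lam Lam g) (lam * x.1, lam * x.2)‖ₑ ^ p =
            9 * ∑ k, ∫⁻ x : ℝ × ℝ, w (lam * x.1) *
              ‖W (t * lam) (bb k lam Lam g) (lam * x.1, lam * x.2)‖ₑ ^ p := by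
          intro t
          rw [lintegral_const_mul' _ _ (by norm_num),
            lintegral_finsetSum Finset.univ (fun k _ => hmx k t)]
        simp_rw [e1]
        rw [lintegral_const_mul' _ _ (by norm_num),
          lintegral_finsetSum Finset.univ (fun k _ => (hm k).lintegral_prod_right')]
    _ ≤ 9 * ∑ _k : Fin 3, CS * C1 ^ (p - 2) *
          ENNReal.ofReal (lam ^ η * ρ ^ (2 - p / 2) * A ^ (p - 2)) * ∫⁻ y, ‖g y‖ₑ ^ 2 := by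
        gcongr with k
        exact piece_est hp hl k hPLB (hker k) hρ hPS (hcos k) (hTS k) hg hA
    _ = _ := by
        rw [Finset.sum_const, Finset.card_univ, Fintype.card_fin, nsmul_eq_mul]
        push_cast
        ring

end Pool.Agent.H47.LS
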