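import Pool.Agent.H47.LS.S2Dc

/-!
S2D, part d: the hypotheses of the slab estimate.
-/

set_option autoImplicit false

namespace Pool.Agent.H47.LS

open MeasureTheory Set Pool.Agent.H83.LS Pool.Agent.H19.LS
open scoped ENNReal NNReal ContDiff

variable {lam Lam : ℝ} {g : ℝ × ℝ → ℂ}

/-- Plancherel at each time -/
theorem planch (hPLB : T_PLB) (t : ℝ) {b : ℝ × ℝ → ℂ} (hb : TC b) :
    ∫⁻ x, ‖W t b x‖ₑ ^ 2 = l2 b := by
  let h : ℝ × ℝ → ℂ := fun ξ => e (t * Real.sqrt (ξ.1 ^ 2 + ξ.2 ^ 2)) * b ξ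
  have hcont : Continuous h :=
    (continuous_e.comp (by fun_prop)).mul hb.1.continuous
  have hBC : BC h := by
    refine ⟨hcont.measurable, ?_, ?_⟩
    · obtain ⟨A, hA⟩ := hb.1.continuous.bounded_above_of_compact_support hb.2
      refine ⟨A, fun y => ?_⟩
      change ‖e _ * b y‖ ≤ A
      rw [norm_mul, norm_e, one_mul]
      exact hA y
    · obtain ⟨R, hR⟩ := hb.2.isCompact.isBounded.exists_norm_le
      refine ⟨R, fun y hy => ?_⟩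
      have : b y = 0 := by
        by_contra hc
        have := hR y (subset_tsupport _ hc)
        linarith
      change e _ * b y = 0
      rw [this, mul_zero]
  have h1 : ∀ x : ℝ × ℝ, W t b x = Ff h (-x) := by
    intro x
    unfold W Ff
    refine integral_congr_ae (Filter.Eventually.of_forall fun ξ => ?_)
    simp only [Prod.fst_neg, Prod.snd_neg]
    change _ = _ * (e _ * b ξ)
    rw [e_add, mul_assoc]
    congr 2
    ring
  simp_rw [h1]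
  have h2 := lintegral_neg_eq_self (μ := (volume : Measure (ℝ × ℝ))) fun z => ‖Ff h z‖ₑ ^ 2
  rw [h2, (hPLB h hBC).2.1]
  unfold l2
  refine lintegral_congr fun ζ => ?_
  change ‖e _ * b ζ‖ₑ ^ 2 = _
  rw [enorm_mul, enorm_e, one_mul]

theorem hyp0 (hPLB : T_PLB) {R : ℝ} (hR : 1 ≤ R) (A₀ : ℝ≥0) (hA : 16 ≤ A₀) :
    Hyp 1 1 R A₀ (fun _ => 1) univ := by
  refine ⟨one_pos, le_rfl, one_pos, le_rfl, hR, measurable_const, ?_, ?_⟩
  · intro x h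
    rw [mul_one, ← ENNReal.ofReal_one]
    apply ENNReal.ofReal_le_ofReal
    apply one_le_pow₀
    have : 0 ≤ |h| / (1 * 1 * R) := by positivity
    linarith
  · intro b hb
    simp only [one_mul]
    simp_rw [planch hPLB _ hb.1]
    rw [lintegral_const, Measure.restrict_apply_univ, Real.volume_Icc]
    have h1 : ENNReal.ofReal (8 * R - -(8 * R)) = 16 * ENNReal.ofReal R := by
      have h2 : (16 : ℝ≥0∞) = ENNReal.ofReal 16 := by norm_num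
      rw [h2, ← ENNReal.ofReal_mul (by norm_num)]
      congr 1
      ring
    rw [h1, mul_comm]
    gcongr
    exact_mod_cast hA

/-- the weight of a slab -/
noncomputable def ws (D x : ℝ) : ℝ≥0∞ := ENNReal.ofReal ((1 + |x| / D) ^ 2)⁻¹

theorem ws_meas (D : ℝ) : Measurable (ws D) := by
  unfold ws
  fun_prop

theorem ws_slow {D : ℝ} (hD : 0 < D) (x h : ℝ) :
    ws D (x + h) ≤ ENNReal.ofReal ((1 + |h| / D) ^ 2) * ws D x := by
  unfold ws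
  rw [← ENNReal.ofReal_mul (by positivity)]
  apply ENNReal.ofReal_le_ofReal
  rw [← div_eq_mul_inv, le_div_iff₀ (by positivity), inv_mul_eq_div, div_le_iff₀ (by positivity),
    ← mul_pow]
  apply pow_le_pow_left₀ (by positivity)
  have h1 : |x| ≤ |x + h| + |h| := by
    have := abs_sub_abs_le_abs_sub x (-h)
    rw [abs_neg, sub_neg_eq_add] at this
    linarith
  have h2 : |x| / D ≤ |x + h| / D + |h| / D := by
    rw [← add_div]
    exact div_le_div_of_nonneg_right h1 hD.le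
  have h3 : 0 ≤ |h| / D * (|x + h| / D) := by positivity
  nlinarith

/-- the integral of the model weight -/
theorem exists_J : ∃ J : ℝ≥0, ∀ D : ℝ, 0 < D → ∫⁻ x, ws D x ≤ ENNReal.ofReal D * J := by
  have h2 : ∫⁻ x : ℝ, ENNReal.ofReal ((1 + ‖x‖) ^ (-(2 : ℝ))) < ⊤ :=
    finite_integral_one_add_norm (by simp)
  refine ⟨(∫⁻ x : ℝ, ENNReal.ofReal ((1 + ‖x‖) ^ (-(2 : ℝ)))).toNNReal, fun D hD => ?_⟩
  rw [ENNReal.coe_toNNReal h2.ne]
  have h3 := (Homeomorph.mulLeft₀ D hD.ne').measurableEmbedding.lintegral_map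
    (μ := volume) (ws D)
  have h4 : Measure.map (Homeomorph.mulLeft₀ D hD.ne') volume =
      ENNReal.ofReal |D⁻¹| • (volume : Measure ℝ) := Real.map_volume_mul_left hD.ne'
  rw [h4, lintegral_smul_measure, smul_eq_mul, abs_of_pos (inv_pos.2 hD)] at h3
  have h5 : ∫⁻ x, ws D x = ENNReal.ofReal D * (ENNReal.ofReal D⁻¹ * ∫⁻ x, ws D x) := by
    rw [← mul_assoc, ← ENNReal.ofReal_mul hD.le, mul_inv_cancel₀ hD.ne', ENNReal.ofReal_one,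
      one_mul]
  rw [h5, h3]
  gcongr with x
  change ws D (D * x) ≤ _
  unfold ws
  apply ENNReal.ofReal_le_ofReal
  rw [Real.rpow_neg (by positivity), Real.rpow_two, Real.norm_eq_abs, abs_mul, abs_of_pos hD]
  apply le_of_eq
  congr 3
  field_simp

/-- the frequency region of a slab -/
def Sr (κ' : ℝ) : Set (ℝ × ℝ) := {ξ | 1 / 16 ≤ ξ.1 ^ 2 + ξ.2 ^ 2 ∧ ξ.1 ^ 2 + ξ.2 ^ 2 ≤ 16 ∧
    κ' * Real.sqrt (ξ.1 ^ 2 + ξ.2 ^ 2) ≤ ξ.1}

theorem hyp1 {CT J : ℝ≥0} (hTR : ∀ (κ : ℝ) (w : ℝ → ℝ≥0∞) (b : ℝ × ℝ → ℂ), 0 < κ → κ ≤ 1 →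
      Measurable w → TS (Sr κ) b →
      ∫⁻ t : ℝ, ∫⁻ x : ℝ × ℝ, w x.1 * ‖W t b x‖ₑ ^ 2 ≤
        CT * ENNReal.ofReal (1 / κ) * (∫⁻ x, w x) * l2 b)
    (hJ : ∀ D : ℝ, 0 < D → ∫⁻ x, ws D x ≤ ENNReal.ofReal D * J)
    {κ κ' ρ R : ℝ} (hκ : 0 < κ) (hκ1 : κ ≤ 1) (hκ' : 0 < κ') (hκ1' : κ' ≤ 1) (hkk : κ ≤ 256 * κ')
    (hρ : 0 < ρ) (hρ1 : ρ ≤ 1) (hR : 1 ≤ R) (A₀ : ℝ≥0) (hA : 256 * CT * J ≤ A₀) :
    Hyp κ ρ R A₀ (ws (κ * ρ * R)) (Sr κ') := by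
  have hD : 0 < κ * ρ * R := by positivity
  refine ⟨hκ, hκ1, hρ, hρ1, hR, ws_meas _, fun x h => ws_slow hD x h, ?_⟩
  intro b hb
  calc ∫⁻ t in Icc (-(8 * R)) (8 * R), ∫⁻ x : ℝ × ℝ, ws (κ * ρ * R) x.1 * ‖W t b x‖ₑ ^ 2
      ≤ ∫⁻ t : ℝ, ∫⁻ x : ℝ × ℝ, ws (κ * ρ * R) x.1 * ‖W t b x‖ₑ ^ 2 :=
        setLIntegral_le_lintegral _ _
    _ ≤ CT * ENNReal.ofReal (1 / κ') * (∫⁻ x, ws (κ * ρ * R) x) * l2 b :=
        hTR κ' _ b hκ' hκ1' (ws_meas _) hb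
    _ ≤ CT * ENNReal.ofReal (1 / κ') * (ENNReal.ofReal (κ * ρ * R) * J) * l2 b := by
        gcongr
        exact hJ _ hD
    _ = CT * J * ENNReal.ofReal (κ * ρ * R / κ') * l2 b := by
        rw [div_eq_mul_one_div (κ * ρ * R), ENNReal.ofReal_mul hD.le]
        ring
    _ ≤ CT * J * ENNReal.ofReal (256 * (ρ * R)) * l2 b := by
        gcongr
        rw [div_le_iff₀ hκ']
        have : 0 < ρ * R := by positivity
        nlinarith
    _ = (256 * CT * J : ℝ≥0) * ENNReal.ofReal (ρ * R) * l2 b := by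
        rw [ENNReal.ofReal_mul (by norm_num)]
        push_cast
        have h2 : ENNReal.ofReal 256 = 256 := by norm_num
        rw [h2]
        ring
    _ ≤ A₀ * ENNReal.ofReal (ρ * R) * l2 b := by gcongr

/-! ### sectors -/

/-- the angles of the sectors, aperture `1` -/
noncomputable def thB : Fin 3 → ℝ := ![Real.pi / 4, -(Real.pi / 4), 0]

/-- the angles of the narrow sectors -/
noncomputable def thA : Fin 3 → ℝ := ![Real.pi / 2, -(Real.pi / 2), Real.pi / 2]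

theorem sqrt_bounds {ζ : ℝ × ℝ} (h1 : 1 / 2 ≤ Real.sqrt (ζ.1 ^ 2 + ζ.2 ^ 2))
    (h2 : Real.sqrt (ζ.1 ^ 2 + ζ.2 ^ 2) ≤ 2) :
    1 / 4 ≤ ζ.1 ^ 2 + ζ.2 ^ 2 ∧ ζ.1 ^ 2 + ζ.2 ^ 2 ≤ 4 := by
  have h3 : Real.sqrt (ζ.1 ^ 2 + ζ.2 ^ 2) ^ 2 = ζ.1 ^ 2 + ζ.2 ^ 2 := Real.sq_sqrt (by positivity)
  constructor <;> nlinarith

theorem bb_pos {k : Fin 3} {ζ : ℝ × ℝ} (hl : 0 < lam) (hL : 0 < Lam)
    (h : 1 / 4 ≤ lam * ζ.1 / Lam ∧ lam * ζ.1 / Lam ≤ 4) :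
    Lam / lam / 4 ≤ ζ.1 ∧ ζ.1 ≤ 4 * (Lam / lam) := by
  obtain ⟨h1, h2⟩ := h
  rw [le_div_iff₀ hL] at h1
  rw [div_le_iff₀ hL] at h2
  constructor
  · rw [div_div, div_le_iff₀ (by positivity)]
    linarith
  · rw [← mul_div_assoc, le_div_iff₀ hl]
    linarith

theorem bb_tauB (k : Fin 3) (hl : 0 < lam) (hL : 0 < Lam) {ζ : ℝ × ℝ}
    (h : bb k lam Lam g ζ ≠ 0) : ζ ∈ tau (thB k) 1 := by
  obtain ⟨h1, ⟨h2, h3⟩, h4⟩ := bb_ne hl h
  obtain ⟨h5, h6⟩ := sqrt_bounds h2 h3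
  obtain ⟨h7, -⟩ := bb_pos (k := k) hl hL h4
  have h8 : 0 < ζ.1 := lt_of_lt_of_le (by positivity) h7
  refine ⟨h5, h6, ?_⟩
  rw [one_mul]
  have hs : 0 < Real.sqrt 2 / 2 := by positivity
  fin_cases k
  · have hz := cc0 h1
    change |-(ζ.1 * Real.sin (Real.pi / 4)) + ζ.2 * Real.cos (Real.pi / 4)| ≤
      ζ.1 * Real.cos (Real.pi / 4) + ζ.2 * Real.sin (Real.pi / 4)
    rw [Real.sin_pi_div_four, Real.cos_pi_div_four, abs_le]
    constructor <;> nlinarith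
  · have hz := cc1 h1
    change |-(ζ.1 * Real.sin (-(Real.pi / 4))) + ζ.2 * Real.cos (-(Real.pi / 4))| ≤
      ζ.1 * Real.cos (-(Real.pi / 4)) + ζ.2 * Real.sin (-(Real.pi / 4))
    rw [Real.sin_neg, Real.cos_neg, Real.sin_pi_div_four, Real.cos_pi_div_four, abs_le]
    constructor <;> nlinarith
  · have hz := cc2 h1
    change |-(ζ.1 * Real.sin 0) + ζ.2 * Real.cos 0| ≤ ζ.1 * Real.cos 0 + ζ.2 * Real.sin 0
    rw [Real.sin_zero, Real.cos_zero]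
    rw [abs_lt] at hz
    have h9 : 1 / 4 < ζ.1 := by nlinarith [hz.1, hz.2]
    rw [abs_le]
    constructor <;> linarith [hz.1, hz.2]

theorem bb_tauA (k : Fin 3) (hl : 0 < lam) (hL : 0 < Lam) (hs : Lam / lam ≤ 1 / 32) {ζ : ℝ × ℝ}
    (h : bb k lam Lam g ζ ≠ 0) : ζ ∈ tau (thA k) (10 * (Lam / lam)) := by
  obtain ⟨h1, ⟨h2, h3⟩, h4⟩ := bb_ne hl h
  obtain ⟨h5, h6⟩ := sqrt_bounds h2 h3
  obtain ⟨h7, h7'⟩ := bb_pos (k := k) hl hL h4
  have hα : 0 < Lam / lam := by positivity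
  have h8 : 0 < ζ.1 := lt_of_lt_of_le (by positivity) h7
  have h9 : ζ.1 ≤ 1 / 8 := by linarith
  have h10 : 16 / 100 ≤ ζ.2 ^ 2 := by nlinarith
  refine ⟨h5, h6, ?_⟩
  fin_cases k
  · have hz := cc0 h1
    change |-(ζ.1 * Real.sin (Real.pi / 2)) + ζ.2 * Real.cos (Real.pi / 2)| ≤
      10 * (Lam / lam) * (ζ.1 * Real.cos (Real.pi / 2) + ζ.2 * Real.sin (Real.pi / 2))
    rw [Real.sin_pi_div_two, Real.cos_pi_div_two, mul_zero, add_zero, mul_one, abs_neg,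
      abs_of_pos h8, mul_zero, zero_add, mul_one]
    have h11 : 4 / 10 ≤ ζ.2 := by
      by_contra hc
      rw [not_le] at hc
      nlinarith
    nlinarith
  · have hz := cc1 h1
    change |-(ζ.1 * Real.sin (-(Real.pi / 2))) + ζ.2 * Real.cos (-(Real.pi / 2))| ≤
      10 * (Lam / lam) * (ζ.1 * Real.cos (-(Real.pi / 2)) + ζ.2 * Real.sin (-(Real.pi / 2)))
    rw [Real.sin_neg, Real.cos_neg, Real.sin_pi_div_two, Real.cos_pi_div_two]
    have e1 : -(ζ.1 * -1) + ζ.2 * 0 = ζ.1 := by ring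
    rw [e1, abs_of_pos h8]
    have h11 : 4 / 10 ≤ -ζ.2 := by
      by_contra hc
      rw [not_le] at hc
      nlinarith
    nlinarith
  · have hz := cc2 h1
    rw [abs_lt] at hz
    nlinarith [hz.1, hz.2]

theorem bb_Sr (k : Fin 3) (hl : 0 < lam) (hL : 0 < Lam) {κ' : ℝ} (hκ : 0 < κ')
    (hk : 8 * κ' ≤ Lam / lam) {ζ : ℝ × ℝ} (h : bb k lam Lam g ζ ≠ 0) : ζ ∈ Sr κ' := by
  obtain ⟨-, ⟨h2, h3⟩, h4⟩ := bb_ne hl h
  obtain ⟨h5, h6⟩ := sqrt_bounds h2 h3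
  obtain ⟨h7, -⟩ := bb_pos (k := k) hl hL h4
  refine ⟨by linarith, by linarith, ?_⟩
  nlinarith

end Pool.Agent.H47.LS
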